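import Pool.Agent.Helper14.PR.Num
import Pool.Agent.Helper14.PR.Upper

/-!
# Exact Triangle by polynomial tests in a bounded number of rounds

The model (file `Pool/Agent/Helper14/PR/Defs.lean`): a randomized algorithm of unlimited computing
power knows all edge flags and its random bits. Along every branch it may ask `t` times for the
signs (negative, zero or positive) of `D` real polynomials of degree at most `d` at once, it may
test `Z` times whether a real polynomial of degree at most `e` vanishes, and it may read `B`
weights. The variables of all these polynomials are all the weights, and every question depends in
an arbitrary way on all the earlier answers.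

Theorem (lower bound): if `(6 t + 1) d ^ 2 ≤ 290` and `B ≤ n ^ 2 / 100`, then an algorithm that
decides Exact Triangle with error at most `1 / 3` on all valid instances satisfies
`n ^ 3 ≤ C (1 + D / n ^ 2) ^ t (n ^ 2 + e Z)`, with an absolute constant `C`. So with few zero
tests (`e Z ≤ n ^ 2`) every round needs `D ≥ n ^ (2 + 1 / t) / C'` sign tests; in particular no
algorithm that asks all its sign tests at once saves more than a constant factor against the
`n ^ 3` triples; and one that asks no sign tests needs `e Z ≥ n ^ 3 / C'`. Conversely `e Z ≥ n ^ 3`
zero tests suffice without sign tests, and `t` rounds with `D = n ^ 2 * b` sign tests of degree 1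
suffice if `b ^ t ≥ 2 * n ^ 300 + 1`: the excess exponent over `2` is of order `1 / t`.

Idea of the proof of the lower bound. Hidden are the weights `x e` between the first two classes of
a complete tripartite graph, `N = (n / 3) ^ 2` numbers. Each of them is a sum of `t` levels and a
rest, in quickly decreasing scales. A level is a digit with `M` values and, with a small
probability, a big part in a smaller scale; the rest is a label with `L` values and a positive
noise. A coordinate without big parts can be planted: then its noise is removed and it becomes one
of `M ^ t L ≤ n / 3` numbers that the third class provides. We bound the average number of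
coordinates whose planting changes the output of a computation tree, by induction over the tree.
A read costs one coordinate. A zero test costs at most `e (2 N / Q + 1 / L)` (where `Q` is the
number of noise values) by the lemma of Schwartz and Zippel and by counting linear divisors. For a
node with sign tests all digits of the level are revealed; if then a test is not decided, which
happens for a polynomial of degree `d` with probability at most `d ^ 2 / M`, we read the variables
of its top monomials until all variables of a top monomial are big; this costs `O(1)` coordinates
in the mean, since every monomial has at most `d` variables, and it decides the test.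
-/

set_option autoImplicit false

namespace Pool.Agent.Results.MP_62fbe0_lc.PolynomialTestsInRounds

open Pool.Agent.Helper14.PR

/-- Polynomial tests in rounds: the lower bound, and upper bounds for sign tests and for zero
tests. -/
theorem result :
    (∃ C : ℝ, 0 < C ∧ ∀ n t d D e Z B R : ℕ, 1 ≤ d → (6 * t + 1) * d ^ 2 ≤ 290 →
      100 * B ≤ n ^ 2 → ∀ A : Alg n d D e t Z B R, Decides A →
        (n : ℝ) ^ 3 ≤ C * (1 + D / (n : ℝ) ^ 2) ^ t * ((n : ℝ) ^ 2 + e * Z)) ∧
    (∀ n t d e Z B b : ℕ, 1 ≤ d → 2 * n ^ 300 + 1 ≤ b ^ t →
      ∃ A : Alg n d (n * n * b) e t Z B 0, Decides A) ∧
    (∀ n d D e t Z B : ℕ, n ^ 3 ≤ e * Z → ∃ A : Alg n d D e t Z B 0, Decides A) :=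
  ⟨lower, upper_signs, upper_zero⟩

end Pool.Agent.Results.MP_62fbe0_lc.PolynomialTestsInRounds
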